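import Pool.Agent.Helper95.Lin.GoalsH

/-! # Packet MLIM -/

open Complex Metric Set Filter Topology MeasureTheory
open scoped ContDiff ComplexConjugate ComplexOrder

namespace Pool.Agent.Helper60.Lin

open Pool.Agent.Helper95.Lin

theorem contDiffOn_dd {n : ℕ} {M : Set (Cn n)} (hM : IsOpen M) {φ : Cn n → ℝ}
    (h : ContDiffOn ℝ ∞ φ M) (a : Fin n × Bool) : ContDiffOn ℝ ∞ (dd φ a) M := by
  have h1 : ContDiffOn ℝ ∞ (fderiv ℝ φ) M :=
    ((contDiffOn_infty_iff_fderiv_of_isOpen hM).1 h).2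
  exact h1.clm_apply contDiffOn_const

theorem contOn_Lop {n : ℕ} {M : Set (Cn n)} (hM : IsOpen M)
    {P : Fin n × Bool → Fin n × Bool → Cn n → ℝ} (hP : ∀ a b, ContDiffOn ℝ ∞ (P a b) M)
    {φ : Cn n → ℝ} (h : ContDiffOn ℝ ∞ φ M) : ContinuousOn (Lop P φ) M := by
  unfold Lop
  refine continuousOn_finsetSum _ fun a _ => continuousOn_finsetSum _ fun b _ => ?_
  exact (hP a b).continuousOn.mul (contDiffOn_dd hM (contDiffOn_dd hM h b) a).continuousOn

theorem contOn_Bop {n : ℕ} {M : Set (Cn n)} (hM : IsOpen M)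
    {P : Fin n × Bool → Fin n × Bool → Cn n → ℝ} (hP : ∀ a b, ContDiffOn ℝ ∞ (P a b) M)
    {φ ψ : Cn n → ℝ} (h : ContDiffOn ℝ ∞ φ M) (h' : ContDiffOn ℝ ∞ ψ M) :
    ContinuousOn (Bop P φ ψ) M := by
  unfold Bop
  refine continuousOn_finsetSum _ fun a _ => continuousOn_finsetSum _ fun b _ => ?_
  exact ((hP a b).continuousOn.mul (contDiffOn_dd hM h a).continuousOn).mul
    (contDiffOn_dd hM h' b).continuousOn

theorem rpow_le_one_add {v s : ℝ} (hv : 0 ≤ v) (hs : 0 < s) (hs1 : s ≤ 1) : v ^ s ≤ 1 + v := by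
  rcases le_total v 1 with h | h
  · exact (Real.rpow_le_one hv h hs.le).trans (by linarith)
  · calc v ^ s ≤ v ^ (1 : ℝ) := Real.rpow_le_rpow_of_exponent_le h hs1
      _ = v := Real.rpow_one v
      _ ≤ 1 + v := by linarith

theorem mlim : S_MASS → S_LRHO → S_MLIM := by
  intro hMass hLrho n M Γ _ T P χ hE hχ ρ c hρ hρc F hF hF0 hFc hnull
  have hM : IsOpen M := hE.act.isOpen
  set v : Cn n → ℝ := fun x => F x * Real.exp (-ρ x) with hv
  have hvc : ContinuousOn v M := hF.mul (Real.continuous_exp.comp_continuousOn hρ.continuousOn.neg)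
  have hv0 : ∀ x ∈ M, 0 ≤ v x := fun x hx => mul_nonneg (hF0 x hx) (Real.exp_pos _).le
  have hL : ContinuousOn (Lop P ρ) M := contOn_Lop hM hE.smooth hρ
  have hB : ContinuousOn (Bop P ρ ρ) M := contOn_Bop hM hE.smooth hρ hρ
  have hχc : Continuous χ := hχ.test.1.continuous
  set G : ℝ → Cn n → ℝ := fun s x => χ x * v x ^ s * (-Lop P ρ x + s * Bop P ρ ρ x) with hG
  have hlim : Tendsto (fun s : ℝ => ∫ x in M, G s x) (𝓝[>] 0)
      (𝓝 (∫ x in M, -(χ x * Lop P ρ x))) := by
    refine tendsto_integral_filter_of_dominated_convergence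
      (fun x => χ x * (1 + v x) * (|Lop P ρ x| + |Bop P ρ ρ x|)) ?_ ?_ ?_ ?_
    · filter_upwards [self_mem_nhdsWithin] with s hs
      refine ContinuousOn.aestronglyMeasurable ?_ hM.measurableSet
      exact ((hχc.continuousOn.mul (hvc.rpow_const fun x _ => Or.inr (le_of_lt hs))).mul
        (hL.neg.add (continuousOn_const.mul hB)))
    · have h1 : ∀ᶠ s : ℝ in 𝓝[>] 0, s ≤ 1 :=
        (eventually_le_nhds (by norm_num : (0 : ℝ) < 1)).filter_mono nhdsWithin_le_nhds
      filter_upwards [self_mem_nhdsWithin, h1] with s hs hs1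
      refine (ae_restrict_iff' hM.measurableSet).2 (Eventually.of_forall fun x hx => ?_)
      have hs0 : (0 : ℝ) < s := hs
      have e1 : |-Lop P ρ x + s * Bop P ρ ρ x| ≤ |Lop P ρ x| + |Bop P ρ ρ x| := by
        refine (abs_add_le _ _).trans ?_
        rw [abs_neg, abs_mul, abs_of_pos hs0]
        have := mul_le_mul_of_nonneg_right hs1 (abs_nonneg (Bop P ρ ρ x))
        linarith
      have e2 : v x ^ s ≤ 1 + v x := rpow_le_one_add (hv0 x hx) hs0 hs1
      have e3 : 0 ≤ v x ^ s := Real.rpow_nonneg (hv0 x hx) _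
      have e4 : 0 ≤ χ x := hχ.nonneg x
      have e5 : 0 ≤ 1 + v x := by linarith [hv0 x hx]
      simp only [hG, Real.norm_eq_abs, abs_mul, abs_of_nonneg e4, abs_of_nonneg e3]
      exact mul_le_mul (mul_le_mul_of_nonneg_left e2 e4) e1 (abs_nonneg _) (mul_nonneg e4 e5)
    · have hK : IsCompact (tsupport χ) := hχ.test.2.1
      have hKM : tsupport χ ⊆ M := hχ.test.2.2
      have hc : ContinuousOn (fun x => χ x * (1 + v x) * (|Lop P ρ x| + |Bop P ρ ρ x|)) M :=
        (hχc.continuousOn.mul (continuousOn_const.add hvc)).mul (hL.abs.add hB.abs)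
      have h1 : IntegrableOn (fun x => χ x * (1 + v x) * (|Lop P ρ x| + |Bop P ρ ρ x|))
          (tsupport χ) := (hc.mono hKM).integrableOn_compact hK
      have h2 := (integrableOn_iff_integrable_of_support_subset (μ := volume)
        (s := tsupport χ) (f := fun x => χ x * (1 + v x) * (|Lop P ρ x| + |Bop P ρ ρ x|)) ?_).1 h1
      · exact h2.integrableOn
      · intro x hx
        refine subset_tsupport χ ?_
        intro h0
        apply hx
        simp only [h0, zero_mul]
    · have h0 : ∀ᵐ x, x ∉ {x | x ∈ M ∧ F x = 0} := measure_eq_zero_iff_ae_notMem.1 hnull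
      refine (ae_restrict_iff' hM.measurableSet).2 ?_
      filter_upwards [h0] with x hx hxM
      have hFx : 0 < F x := lt_of_le_of_ne (hF0 x hxM) fun h => hx ⟨hxM, h.symm⟩
      have hvx : 0 < v x := mul_pos hFx (Real.exp_pos _)
      have t1 : Tendsto (fun s : ℝ => v x ^ s) (𝓝[>] 0) (𝓝 1) := by
        have := (Real.continuousAt_const_rpow (a := v x) (b := 0) hvx.ne').tendsto
        rw [Real.rpow_zero] at this
        exact this.mono_left nhdsWithin_le_nhds
      have t2 : Tendsto (fun s : ℝ => s) (𝓝[>] 0) (𝓝 0) := tendsto_id.mono_left nhdsWithin_le_nhds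
      have t3 := (t1.const_mul (χ x)).mul
        ((tendsto_const_nhds (x := -Lop P ρ x)).add (t2.mul_const (Bop P ρ ρ x)))
      simpa only [hG, mul_one, zero_mul, add_zero, mul_neg] using t3
  have hzero : ∫ x in M, -(χ x * Lop P ρ x) = 0 := by
    rw [integral_neg, hLrho hE hχ ρ c hρ hρc, neg_zero]
  rw [hzero] at hlim
  refine hlim.congr' ?_
  filter_upwards [self_mem_nhdsWithin] with s hs
  have hs0 : (0 : ℝ) < s := hs
  rw [hMass hE hχ ρ c hρ hρc F hF hF0 hFc s hs0, ← integral_const_mul]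
  refine integral_congr_ae (Eventually.of_forall fun x => ?_)
  simp only [hG, hv]
  field_simp

end Pool.Agent.Helper60.Lin
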